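import Pool.Agent.W787.PS.StmA

set_option autoImplicit false

open MeasureTheory Set Metric Filter Topology

noncomputable section

namespace Pool.Agent.W787.PS.W414

/-- the bump -/
def bp : ContDiffBump (0 : ℂ) := ⟨1, 2, by norm_num, by norm_num⟩

def Th (R : ℝ) (x : ℂ) : ℝ := bp (R⁻¹ • x)

theorem Th_contDiff (R : ℝ) : ContDiff ℝ 1 (Th R) := by
  unfold Th
  exact (bp.contDiff (n := 1)).comp (contDiff_id.const_smul R⁻¹)

theorem norm_inv_smul {R : ℝ} (hR : 0 < R) (x : ℂ) : ‖R⁻¹ • x‖ = ‖x‖ / R := by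
  rw [norm_smul, norm_inv, Real.norm_eq_abs, abs_of_pos hR]
  ring

theorem Th_supp {R : ℝ} (hR : 0 < R) : tsupport (Th R) ⊆ closedBall 0 (2 * R) := by
  apply closure_minimal _ isClosed_closedBall
  intro x hx
  rw [mem_closedBall, dist_zero_right]
  by_contra hc
  push Not at hc
  apply hx
  unfold Th
  apply bp.zero_of_le_dist
  rw [dist_zero_right, norm_inv_smul hR]
  show (2 : ℝ) ≤ _
  rw [le_div_iff₀ hR]
  exact hc.le

theorem Th_fderiv (R : ℝ) (x v : ℂ) :
    fderiv ℝ (Th R) x v = fderiv ℝ bp (R⁻¹ • x) (R⁻¹ • v) := by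
  have h1 : HasFDerivAt (fun x : ℂ => R⁻¹ • x) (R⁻¹ • ContinuousLinearMap.id ℝ ℂ) x :=
    (hasFDerivAt_id x).const_smul R⁻¹
  have h2 : HasFDerivAt (bp : ℂ → ℝ) (fderiv ℝ bp (R⁻¹ • x)) (R⁻¹ • x) :=
    ((bp.contDiff (n := 1)).differentiable one_ne_zero _).hasFDerivAt
  have h3 := h2.comp x h1
  have h4 : HasFDerivAt (Th R) _ x := h3
  rw [h4.fderiv]
  rfl

theorem ker : S_KER := by
  -- the Lipschitz constant
  have hsupp : HasCompactSupport (fun z : ℂ => bp z • z) := bp.hasCompactSupport.smul_right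
  have hcd : ContDiff ℝ 1 (fun z : ℂ => bp z • z) := (bp.contDiff (n := 1)).smul contDiff_id
  obtain ⟨K, hK⟩ := hcd.lipschitzWith_of_hasCompactSupport hsupp one_ne_zero
  -- the bound of the divergence
  have hc2 : Continuous (fun z : ℂ => 2 * bp z + fderiv ℝ bp z z) := by
    have h1 : Continuous (fderiv ℝ (bp : ℂ → ℝ)) := (bp.contDiff (n := 1)).continuous_fderiv one_ne_zero
    exact (continuous_const.mul bp.continuous).add (h1.clm_apply continuous_id)
  have hs2 : HasCompactSupport (fun z : ℂ => 2 * bp z + fderiv ℝ bp z z) := by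
    apply HasCompactSupport.intro (isCompact_closedBall (0 : ℂ) 2)
    intro z hz
    rw [mem_closedBall, dist_zero_right, not_le] at hz
    have h1 : (bp : ℂ → ℝ) =ᶠ[𝓝 z] fun _ => 0 := by
      have : {w : ℂ | 2 < ‖w‖} ∈ 𝓝 z := (isOpen_lt continuous_const continuous_norm).mem_nhds hz
      filter_upwards [this] with w hw
      apply bp.zero_of_le_dist
      rw [dist_zero_right]
      exact (show (2 : ℝ) < ‖w‖ from hw).le
    have h2 : bp z = 0 := h1.eq_of_nhds
    rw [h2, h1.fderiv_eq]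
    simp
  obtain ⟨B, hB⟩ := hc2.bounded_above_of_compact_support hs2
  refine ⟨max (max B K) 1, Th, by positivity, fun R hR => ?_⟩
  refine ⟨Th_contDiff R, ?_, Th_supp hR, fun x => ⟨bp.nonneg, bp.le_one⟩, ?_, ?_, ?_, ?_⟩
  · exact HasCompactSupport.of_support_subset_isCompact (isCompact_closedBall 0 (2 * R))
      ((subset_tsupport _).trans (Th_supp hR))
  · intro x hx
    apply bp.one_of_mem_closedBall
    rw [mem_closedBall, dist_zero_right, norm_inv_smul hR]
    show _ ≤ (1 : ℝ)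
    rw [div_le_one hR]
    exact hx
  · intro x hx
    have h1 : Th R =ᶠ[𝓝 x] fun _ => 1 := by
      have : {w : ℂ | ‖w‖ < R} ∈ 𝓝 x := (isOpen_lt continuous_norm continuous_const).mem_nhds hx
      filter_upwards [this] with w hw
      apply bp.one_of_mem_closedBall
      rw [mem_closedBall, dist_zero_right, norm_inv_smul hR]
      show _ ≤ (1 : ℝ)
      rw [div_le_one hR]
      exact (show ‖w‖ < R from hw).le
    rw [h1.fderiv_eq]
    simp
  · intro x
    rw [Th_fderiv]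
    have := hB (R⁻¹ • x)
    rw [Real.norm_eq_abs] at this
    exact this.trans ((le_max_left _ _).trans (le_max_left _ _))
  · intro x y
    have e0 : ∀ x : ℂ, Th R x • x = R • (bp (R⁻¹ • x) • (R⁻¹ • x)) := fun x => by
      unfold Th
      rw [smul_comm (bp (R⁻¹ • x)) R⁻¹ x, smul_smul R, mul_inv_cancel₀ hR.ne', one_smul]
    have e1 : Th R x • x - Th R y • y = R • (bp (R⁻¹ • x) • (R⁻¹ • x) - bp (R⁻¹ • y) • (R⁻¹ • y)) := by
      rw [e0 x, e0 y, ← smul_sub]
    have e2 : ‖Th R x • x - Th R y • y‖ ≤ K * ‖x - y‖ := by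
      rw [e1, norm_smul, Real.norm_eq_abs, abs_of_pos hR]
      have h1 := hK.dist_le_mul (R⁻¹ • x) (R⁻¹ • y)
      rw [dist_eq_norm, dist_eq_norm, ← smul_sub, norm_inv_smul hR] at h1
      calc R * ‖bp (R⁻¹ • x) • (R⁻¹ • x) - bp (R⁻¹ • y) • (R⁻¹ • y)‖ ≤ R * (K * (‖x - y‖ / R)) :=
            mul_le_mul_of_nonneg_left h1 hR.le
        _ = K * ‖x - y‖ := by field_simp
    calc |inner ℝ (Th R x • x - Th R y • y) (x - y)| ≤ ‖Th R x • x - Th R y • y‖ * ‖x - y‖ :=
          abs_real_inner_le_norm _ _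
      _ ≤ K * ‖x - y‖ * ‖x - y‖ := mul_le_mul_of_nonneg_right e2 (norm_nonneg _)
      _ = K * ‖x - y‖ ^ 2 := by ring
      _ ≤ _ := mul_le_mul_of_nonneg_right ((le_max_right _ _).trans (le_max_left _ _))
          (sq_nonneg _)

/-- the radial derivative is bounded by the gradient -/
theorem fderiv_self_le (f : ℂ → ℝ) (x : ℂ) : (fderiv ℝ f x x) ^ 2 ≤ ‖x‖ ^ 2 * nsq f x := by
  have h1 : fderiv ℝ f x x = x.re * fderiv ℝ f x 1 + x.im * fderiv ℝ f x Complex.I := by
    have : x = x.re • (1 : ℂ) + x.im • Complex.I := by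
      apply Complex.ext <;> simp
    conv_lhs => rw [show fderiv ℝ f x x = fderiv ℝ f x (x.re • (1 : ℂ) + x.im • Complex.I) by rw [← this]]
    rw [map_add, map_smul, map_smul, smul_eq_mul, smul_eq_mul]
  have h2 : ‖x‖ ^ 2 = x.re ^ 2 + x.im ^ 2 := by
    rw [Complex.sq_norm, Complex.normSq_apply]; ring
  rw [h1, h2]
  unfold nsq
  nlinarith [sq_nonneg (x.re * fderiv ℝ f x Complex.I - x.im * fderiv ℝ f x 1)]

section est

variable {Λ R1 R2 L ε C κ δ CR : ℝ} {ρ g w : ℂ → ℝ} {θ : ℂ → ℝ}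

/-- the kernel -/
def Kn (θ : ℂ → ℝ) (p : ℂ × ℂ) : ℝ :=
  inner ℝ (θ p.1 • p.1 - θ p.2 • p.2) (p.1 - p.2) / ‖p.1 - p.2‖ ^ 2

theorem diag_null : ∀ᵐ p : ℂ × ℂ, p.1 ≠ p.2 := by
  have h : MeasurableSet {p : ℂ × ℂ | p.1 = p.2} := measurableSet_eq_fun measurable_fst measurable_snd
  have h1 : (volume : Measure (ℂ × ℂ)) {p : ℂ × ℂ | p.1 = p.2} = 0 := by
    rw [Measure.volume_eq_prod, Measure.measure_prod_null h]
    refine Eventually.of_forall fun x => ?_
    show volume (Prod.mk x ⁻¹' {p : ℂ × ℂ | p.1 = p.2}) = 0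
    have : Prod.mk x ⁻¹' {p : ℂ × ℂ | p.1 = p.2} = {x} := by
      ext y; simp [eq_comm]
    rw [this]
    simp
  rw [ae_iff]
  simpa using h1

theorem nsq_nonneg (f : ℂ → ℝ) (x : ℂ) : 0 ≤ nsq f x := by
  unfold nsq
  positivity

theorem Kn_meas (hθ : Continuous θ) : Measurable (Kn θ) := by
  unfold Kn
  exact (Continuous.inner (((hθ.comp continuous_fst).smul continuous_fst).sub
    ((hθ.comp continuous_snd).smul continuous_snd)) (continuous_fst.sub continuous_snd)).measurable.div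
    ((continuous_fst.sub continuous_snd).norm.pow 2).measurable

theorem Kn_le (hC : 0 ≤ C)
    (hθi : ∀ x y : ℂ, |inner ℝ (θ x • x - θ y • y) (x - y)| ≤ C * ‖x - y‖ ^ 2) (p : ℂ × ℂ) :
    |Kn θ p| ≤ C := by
  unfold Kn
  by_cases h : p.1 = p.2
  · rw [h]
    simpa using hC
  · have hxy : 0 < ‖p.1 - p.2‖ := norm_pos_iff.2 (sub_ne_zero.2 h)
    rw [abs_div, abs_of_pos (pow_pos hxy 2), div_le_iff₀ (pow_pos hxy 2)]
    exact hθi p.1 p.2

theorem kernel_bound (hC : 0 ≤ C) (hR1 : 0 < R1) (hR2 : 2 * R1 < R2) (hκ : R1 / (R2 - R1) ≤ κ)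
    (hθ0 : ∀ x, 2 * R1 < ‖x‖ → θ x = 0) (hθ1 : ∀ x : ℂ, ‖x‖ ≤ R1 → θ x = 1)
    (hθi : ∀ x y : ℂ, |inner ℝ (θ x • x - θ y • y) (x - y)| ≤ C * ‖x - y‖ ^ 2)
    (hρ : ∀ x, 0 ≤ ρ x) (p : ℂ × ℂ) (hp : p.1 ≠ p.2) :
    ‖Kn θ p * (ρ p.1 * ρ p.2) - (ball (0 : ℂ) R1).indicator ρ p.1 *
        (ball (0 : ℂ) R1).indicator ρ p.2‖ ≤
      C * ((ball (0 : ℂ) R2 \ ball 0 R1).indicator ρ p.1 * ρ p.2) +
        C * (ρ p.1 * (ball (0 : ℂ) R2 \ ball 0 R1).indicator ρ p.2) + κ * (ρ p.1 * ρ p.2) := by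
  have hκ0 : 0 ≤ κ := le_trans (div_nonneg hR1.le (by linarith)) hκ
  obtain ⟨x, y⟩ := p
  simp only at hp ⊢
  have hx0 := hρ x
  have hy0 := hρ y
  have hxy : 0 < ‖x - y‖ := norm_pos_iff.2 (sub_ne_zero.2 hp)
  have hK : |Kn θ (x, y)| ≤ C := by
    unfold Kn
    simp only
    rw [abs_div, abs_of_pos (pow_pos hxy 2), div_le_iff₀ (pow_pos hxy 2)]
    exact hθi x y
  have hKρ : ‖Kn θ (x, y) * (ρ x * ρ y)‖ ≤ C * (ρ x * ρ y) := by
    rw [norm_mul, Real.norm_eq_abs, Real.norm_eq_abs, abs_of_nonneg (mul_nonneg hx0 hy0)]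
    exact mul_le_mul_of_nonneg_right hK (mul_nonneg hx0 hy0)
  have hiA0 : ∀ z, 0 ≤ (ball (0 : ℂ) R2 \ ball 0 R1).indicator ρ z := fun z =>
    indicator_nonneg (fun z _ => hρ z) z
  -- the far kernel
  have far : ∀ x y : ℂ, ‖x‖ < R1 → R2 ≤ ‖y‖ → |Kn θ (x, y)| ≤ κ ∧ |Kn θ (y, x)| ≤ κ := by
    intro x y hx hy
    have hxy : R2 - R1 ≤ ‖x - y‖ := by
      have := norm_sub_norm_le y x
      rw [norm_sub_rev] at this
      linarith
    have hxy0 : 0 < ‖x - y‖ := by linarith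
    have key : |inner ℝ x (x - y)| / ‖x - y‖ ^ 2 ≤ κ := by
      have h1 : |inner ℝ x (x - y)| ≤ ‖x‖ * ‖x - y‖ := abs_real_inner_le_norm _ _
      calc |inner ℝ x (x - y)| / ‖x - y‖ ^ 2 ≤ ‖x‖ * ‖x - y‖ / ‖x - y‖ ^ 2 :=
            div_le_div_of_nonneg_right h1 (by positivity)
        _ = ‖x‖ / ‖x - y‖ := by field_simp
        _ ≤ R1 / (R2 - R1) := div_le_div₀ hR1.le hx.le (by linarith) hxy
        _ ≤ κ := hκ
    have ex : θ x = 1 := hθ1 x hx.le
    have ey : θ y = 0 := hθ0 y (by linarith)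
    constructor
    · unfold Kn
      simp only
      rw [ex, ey, one_smul, zero_smul, sub_zero, abs_div, abs_of_pos (pow_pos hxy0 2)]
      exact key
    · unfold Kn
      simp only
      rw [ex, ey, one_smul, zero_smul, zero_sub, norm_sub_rev, abs_div,
        abs_of_pos (pow_pos hxy0 2), inner_neg_left, abs_neg, ← neg_sub x y, inner_neg_right, abs_neg]
      exact key
  by_cases hx1 : ‖x‖ < R1
  · by_cases hy1 : ‖y‖ < R1
    · -- both inside
      have e1 : Kn θ (x, y) = 1 := by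
        unfold Kn
        simp only
        rw [hθ1 x hx1.le, hθ1 y hy1.le, one_smul, one_smul, real_inner_self_eq_norm_sq,
          div_self (pow_pos hxy 2).ne']
      have hxm : x ∈ ball (0 : ℂ) R1 := by rwa [mem_ball, dist_zero_right]
      have hym : y ∈ ball (0 : ℂ) R1 := by rwa [mem_ball, dist_zero_right]
      rw [e1, indicator_of_mem hxm, indicator_of_mem hym, one_mul, sub_self, norm_zero]
      have := hiA0 x
      have := hiA0 y
      positivity
    · have hym : y ∉ ball (0 : ℂ) R1 := by rwa [mem_ball, dist_zero_right]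
      rw [indicator_of_notMem hym, mul_zero, sub_zero]
      by_cases hy2 : ‖y‖ < R2
      · have hyA : y ∈ ball (0 : ℂ) R2 \ ball 0 R1 := ⟨by rwa [mem_ball, dist_zero_right], hym⟩
        rw [indicator_of_mem hyA]
        have h1 := mul_nonneg (hiA0 x) hy0
        nlinarith [mul_nonneg hC h1, mul_nonneg hκ0 (mul_nonneg hx0 hy0)]
      · have h1 := (far x y hx1 (not_lt.1 hy2)).1
        rw [norm_mul, Real.norm_eq_abs, Real.norm_eq_abs, abs_of_nonneg (mul_nonneg hx0 hy0)]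
        have h2 := mul_le_mul_of_nonneg_right h1 (mul_nonneg hx0 hy0)
        have h3 := mul_nonneg hC (mul_nonneg (hiA0 x) hy0)
        have h4 := mul_nonneg hC (mul_nonneg hx0 (hiA0 y))
        linarith
  · have hxm : x ∉ ball (0 : ℂ) R1 := by rwa [mem_ball, dist_zero_right]
    rw [indicator_of_notMem hxm, zero_mul, sub_zero]
    by_cases hx2 : ‖x‖ < R2
    · have hxA : x ∈ ball (0 : ℂ) R2 \ ball 0 R1 := ⟨by rwa [mem_ball, dist_zero_right], hxm⟩
      rw [indicator_of_mem hxA]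
      have h4 := mul_nonneg hC (mul_nonneg hx0 (hiA0 y))
      have h5 := mul_nonneg hκ0 (mul_nonneg hx0 hy0)
      linarith
    · rw [not_lt] at hx2
      have h3 := mul_nonneg hC (mul_nonneg (hiA0 x) hy0)
      have h4 := mul_nonneg hC (mul_nonneg hx0 (hiA0 y))
      by_cases hy1 : ‖y‖ < R1
      · have h1 := (far y x hy1 hx2).2
        rw [norm_mul, Real.norm_eq_abs, Real.norm_eq_abs, abs_of_nonneg (mul_nonneg hx0 hy0)]
        have h2 := mul_le_mul_of_nonneg_right h1 (mul_nonneg hx0 hy0)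
        linarith
      · by_cases hy2 : ‖y‖ < R2
        · have hyA : y ∈ ball (0 : ℂ) R2 \ ball 0 R1 :=
            ⟨by rwa [mem_ball, dist_zero_right], by rwa [mem_ball, dist_zero_right]⟩
          rw [indicator_of_mem hyA]
          have h5 := mul_nonneg hκ0 (mul_nonneg hx0 hy0)
          linarith
        · rw [not_lt] at hy2
          have e1 : Kn θ (x, y) = 0 := by
            unfold Kn
            simp only
            rw [hθ0 x (by linarith), hθ0 y (by linarith), zero_smul, zero_smul, sub_zero,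
              inner_zero_left, zero_div]
          rw [e1, zero_mul, norm_zero]
          have h5 := mul_nonneg hκ0 (mul_nonneg hx0 hy0)
          linarith

theorem est (hD : IsDatum Λ (3 * R1) L ε ρ g w) (hC : 0 ≤ C) (hR1 : 0 < R1) (hR2 : 2 * R1 < R2)
    (hκ : R1 / (R2 - R1) ≤ κ) (hL : 0 ≤ L) (hδ : 0 < δ)
    (hCR : ∫ x in ball (0 : ℂ) (3 * R1), ρ x ^ 2 ≤ CR)
    (hθc : ContDiff ℝ 1 θ) (hθs : HasCompactSupport θ) (hθt : tsupport θ ⊆ closedBall 0 (2 * R1))
    (hθb : ∀ x, 0 ≤ θ x ∧ θ x ≤ 1) (hθ1 : ∀ x : ℂ, ‖x‖ ≤ R1 → θ x = 1)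
    (hθd : ∀ x : ℂ, ‖x‖ < R1 → fderiv ℝ θ x = 0)
    (hθv : ∀ x, |2 * θ x + fderiv ℝ θ x x| ≤ C)
    (hθi : ∀ x y : ℂ, |inner ℝ (θ x • x - θ y • y) (x - y)| ≤ C * ‖x - y‖ ^ 2)
    (hVIR : S_VIR) :
    |2 * ms ρ 0 R1 - 1 / (4 * Real.pi) * ms ρ 0 R1 ^ 2| ≤
      C * (ms ρ 0 R2 - ms ρ 0 R1) + (2 * C * (ms ρ 0 R2 - ms ρ 0 R1) * Λ + κ * Λ ^ 2)
        + 2 * R1 * L * Λ + R1 * (δ⁻¹ * ε ^ 2 + δ * CR) := by
  have hκ0 : 0 ≤ κ := le_trans (div_nonneg hR1.le (by linarith)) hκ
  have hρc : Continuous ρ := hD.diff.continuous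
  have hρi : Integrable ρ := hρc.integrable_of_hasCompactSupport hD.supp
  have hI0 : 0 ≤ ∫ x, ρ x := integral_nonneg hD.nonneg
  have hΛ : 0 ≤ Λ := hI0.trans hD.mass
  have hρ2c : Continuous (fun x => ρ x ^ 2) := hρc.pow 2
  have hρ2s : HasCompactSupport (fun x => ρ x ^ 2) :=
    hD.supp.comp_left (g := fun t : ℝ => t ^ 2) (by norm_num)
  have hρ2 : Integrable (fun x => ρ x ^ 2) := hρ2c.integrable_of_hasCompactSupport hρ2s
  have hθ0 : ∀ x, 2 * R1 < ‖x‖ → θ x = 0 := by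
    intro x hx
    by_contra hne
    have h1 := hθt (subset_tsupport _ hne)
    rw [mem_closedBall, dist_zero_right] at h1
    linarith
  have hsub : tsupport θ ⊆ ball 0 (3 * R1) :=
    hθt.trans (closedBall_subset_ball (by linarith))
  have hv := hVIR Λ (3 * R1) L ε ρ g w hD θ hθc hθs hsub
  set A := ball (0 : ℂ) R2 \ ball 0 R1 with hA
  have hAm : MeasurableSet A := measurableSet_ball.diff measurableSet_ball
  have hdiff : ∫ x in A, ρ x = ms ρ 0 R2 - ms ρ 0 R1 := by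
    unfold ms
    exact setIntegral_sdiff measurableSet_ball hρi.integrableOn (ball_subset_ball (by linarith))
  have hd0 : 0 ≤ ms ρ 0 R2 - ms ρ 0 R1 := by
    rw [← hdiff]
    exact setIntegral_nonneg hAm fun x _ => hD.nonneg x
  -- first term
  have t1 : |(∫ x, (2 * θ x + fderiv ℝ θ x x) * ρ x) - 2 * ms ρ 0 R1| ≤
      C * (ms ρ 0 R2 - ms ρ 0 R1) := by
    have hFi : Integrable (fun x => (2 * θ x + fderiv ℝ θ x x) * ρ x) := by
      have hc : Continuous (fun x => (2 * θ x + fderiv ℝ θ x x) * ρ x) :=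
        ((continuous_const.mul hθc.continuous).add
          ((hθc.continuous_fderiv one_ne_zero).clm_apply continuous_id)).mul hρc
      exact hc.integrable_of_hasCompactSupport hD.supp.mul_left
    have e1 : 2 * ms ρ 0 R1 = ∫ x, 2 * (ball (0 : ℂ) R1).indicator ρ x := by
      unfold ms
      rw [integral_const_mul, integral_indicator measurableSet_ball]
    rw [e1, ← integral_sub hFi ((hρi.indicator measurableSet_ball).const_mul 2)]
    have e2 : C * (ms ρ 0 R2 - ms ρ 0 R1) = ∫ x, C * A.indicator ρ x := by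
      rw [integral_const_mul, integral_indicator hAm, hdiff]
    rw [e2, ← Real.norm_eq_abs]
    apply norm_integral_le_of_norm_le ((hρi.indicator hAm).const_mul C)
    refine Eventually.of_forall fun x => ?_
    have hx0 := hD.nonneg x
    by_cases hx1 : ‖x‖ < R1
    · have hxm : x ∈ ball (0 : ℂ) R1 := by rwa [mem_ball, dist_zero_right]
      have hxA : x ∉ A := fun h => h.2 hxm
      rw [indicator_of_mem hxm, indicator_of_notMem hxA, hθ1 x hx1.le, hθd x hx1]
      simp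
    · have hxm : x ∉ ball (0 : ℂ) R1 := by rwa [mem_ball, dist_zero_right]
      rw [indicator_of_notMem hxm, mul_zero, sub_zero]
      by_cases hx2 : ‖x‖ < R2
      · have hxA : x ∈ A := ⟨by rwa [mem_ball, dist_zero_right], hxm⟩
        rw [indicator_of_mem hxA, norm_mul, Real.norm_eq_abs, Real.norm_eq_abs, abs_of_nonneg hx0]
        exact mul_le_mul_of_nonneg_right (hθv x) hx0
      · have hxA : x ∉ A := fun h => hx2 (by simpa using h.1)
        have h1 : 2 * R1 < ‖x‖ := by linarith [not_lt.1 hx2]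
        have hd : fderiv ℝ θ x = 0 := by
          have : θ =ᶠ[𝓝 x] fun _ => 0 := by
            filter_upwards [(isOpen_lt continuous_const continuous_norm).mem_nhds h1] with y hy
            exact hθ0 y hy
          rw [this.fderiv_eq]
          simp
        rw [indicator_of_notMem hxA, hθ0 x h1, hd]
        simp
  -- second term
  have t2 : |(∫ p : ℂ × ℂ, inner ℝ (θ p.1 • p.1 - θ p.2 • p.2) (p.1 - p.2)
        / ‖p.1 - p.2‖ ^ 2 * (ρ p.1 * ρ p.2)) - ms ρ 0 R1 ^ 2| ≤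
      2 * C * (ms ρ 0 R2 - ms ρ 0 R1) * Λ + κ * Λ ^ 2 := by
    have hsq : ms ρ 0 R1 ^ 2 = ∫ p : ℂ × ℂ, (ball (0 : ℂ) R1).indicator ρ p.1 *
        (ball (0 : ℂ) R1).indicator ρ p.2 := by
      rw [Measure.volume_eq_prod, integral_prod_mul, integral_indicator measurableSet_ball]
      unfold ms
      ring
    have hpi : Integrable (fun p : ℂ × ℂ => ρ p.1 * ρ p.2) := by
      rw [Measure.volume_eq_prod]
      exact hρi.mul_prod hρi
    have hi1 : Integrable (fun p : ℂ × ℂ => A.indicator ρ p.1 * ρ p.2) := by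
      rw [Measure.volume_eq_prod]
      exact (hρi.indicator hAm).mul_prod hρi
    have hi2 : Integrable (fun p : ℂ × ℂ => ρ p.1 * A.indicator ρ p.2) := by
      rw [Measure.volume_eq_prod]
      exact hρi.mul_prod (hρi.indicator hAm)
    have hib : Integrable (fun p : ℂ × ℂ => (ball (0 : ℂ) R1).indicator ρ p.1 *
        (ball (0 : ℂ) R1).indicator ρ p.2) := by
      rw [Measure.volume_eq_prod]
      exact (hρi.indicator measurableSet_ball).mul_prod (hρi.indicator measurableSet_ball)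
    have hKi : Integrable (fun p : ℂ × ℂ => Kn θ p * (ρ p.1 * ρ p.2)) := by
      refine (hpi.const_mul C).mono' ((Kn_meas hθc.continuous).aestronglyMeasurable.mul
        hpi.aestronglyMeasurable) (Eventually.of_forall fun p => ?_)
      have h0 : 0 ≤ ρ p.1 * ρ p.2 := mul_nonneg (hD.nonneg _) (hD.nonneg _)
      rw [norm_mul, Real.norm_eq_abs, Real.norm_eq_abs, abs_of_nonneg h0]
      exact mul_le_mul_of_nonneg_right (Kn_le hC hθi p) h0
    have hK : (∫ p : ℂ × ℂ, inner ℝ (θ p.1 • p.1 - θ p.2 • p.2) (p.1 - p.2)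
        / ‖p.1 - p.2‖ ^ 2 * (ρ p.1 * ρ p.2)) = ∫ p : ℂ × ℂ, Kn θ p * (ρ p.1 * ρ p.2) := rfl
    rw [hK, hsq, ← integral_sub hKi hib, ← Real.norm_eq_abs]
    have hbi : Integrable (fun p : ℂ × ℂ => C * (A.indicator ρ p.1 * ρ p.2) +
        C * (ρ p.1 * A.indicator ρ p.2) + κ * (ρ p.1 * ρ p.2)) :=
      ((hi1.const_mul C).add (hi2.const_mul C)).add (hpi.const_mul κ)
    refine (norm_integral_le_of_norm_le hbi ?_).trans ?_
    · filter_upwards [diag_null] with p hp
      exact kernel_bound hC hR1 hR2 hκ hθ0 hθ1 hθi hD.nonneg p hp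
    · have e0 : ∫ p : ℂ × ℂ, (C * (A.indicator ρ p.1 * ρ p.2) +
          C * (ρ p.1 * A.indicator ρ p.2) + κ * (ρ p.1 * ρ p.2)) =
          (∫ p : ℂ × ℂ, (C * (A.indicator ρ p.1 * ρ p.2) + C * (ρ p.1 * A.indicator ρ p.2))) +
            ∫ p : ℂ × ℂ, κ * (ρ p.1 * ρ p.2) :=
        integral_add ((hi1.const_mul C).add (hi2.const_mul C)) (hpi.const_mul κ)
      rw [e0, integral_add (hi1.const_mul C) (hi2.const_mul C), integral_const_mul,
        integral_const_mul, integral_const_mul, Measure.volume_eq_prod, integral_prod_mul,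
        integral_prod_mul, integral_prod_mul, integral_indicator hAm, hdiff]
      set I := ∫ x, ρ x with hI
      set d := ms ρ 0 R2 - ms ρ 0 R1 with hd
      have hIΛ : I ≤ Λ := hD.mass
      have h1 : C * (d * I) ≤ C * (d * Λ) :=
        mul_le_mul_of_nonneg_left (mul_le_mul_of_nonneg_left hIΛ hd0) hC
      have h2 : κ * (I * I) ≤ κ * (Λ * Λ) :=
        mul_le_mul_of_nonneg_left (mul_le_mul hIΛ hIΛ hI0 hΛ) hκ0
      linarith
  -- third term
  have t3 : |∫ x, θ x * fderiv ℝ g x x * ρ x| ≤ 2 * R1 * L * Λ := by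
    rw [← Real.norm_eq_abs]
    refine (norm_integral_le_of_norm_le (hρi.const_mul (2 * R1 * L))
      (Eventually.of_forall fun x => ?_)).trans ?_
    · have hx0 := hD.nonneg x
      rw [norm_mul, Real.norm_eq_abs, Real.norm_eq_abs, abs_of_nonneg hx0]
      apply mul_le_mul_of_nonneg_right _ hx0
      by_cases hx : 2 * R1 < ‖x‖
      · rw [hθ0 x hx, zero_mul, abs_zero]
        positivity
      · rw [not_lt] at hx
        have hxb : x ∈ ball (0 : ℂ) (3 * R1) := by
          rw [mem_ball, dist_zero_right]; linarith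
        have h1 : (fderiv ℝ g x x) ^ 2 ≤ (2 * R1 * L) ^ 2 := by
          calc (fderiv ℝ g x x) ^ 2 ≤ ‖x‖ ^ 2 * nsq g x := fderiv_self_le g x
            _ ≤ (2 * R1) ^ 2 * L ^ 2 := mul_le_mul (pow_le_pow_left₀ (norm_nonneg _) hx 2)
                (hD.g_grad x hxb) (nsq_nonneg g x) (by positivity)
            _ = _ := by ring
        have h2 : |fderiv ℝ g x x| ≤ 2 * R1 * L := abs_le_of_sq_le_sq h1 (by positivity)
        rw [abs_mul, abs_of_nonneg (hθb x).1]
        calc θ x * |fderiv ℝ g x x| ≤ 1 * |fderiv ℝ g x x| :=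
              mul_le_mul_of_nonneg_right (hθb x).2 (abs_nonneg _)
          _ ≤ _ := by rw [one_mul]; exact h2
    · rw [integral_const_mul]
      exact mul_le_mul_of_nonneg_left hD.mass (by positivity)
  -- fourth term
  have t4 : |∫ x, θ x * fderiv ℝ w x x * ρ x| ≤ R1 * (δ⁻¹ * ε ^ 2 + δ * CR) := by
    rw [← Real.norm_eq_abs]
    have hin : IntegrableOn (fun x => R1 * (δ⁻¹ * nsq w x + δ * ρ x ^ 2)) (ball 0 (3 * R1)) :=
      ((hD.w_int.const_mul δ⁻¹).add (hρ2.integrableOn.const_mul δ)).const_mul R1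
    refine (norm_integral_le_of_norm_le (hin.integrable_indicator measurableSet_ball)
      (Eventually.of_forall fun x => ?_)).trans ?_
    · have hx0 := hD.nonneg x
      by_cases hx : 2 * R1 < ‖x‖
      · rw [hθ0 x hx, zero_mul, zero_mul, norm_zero]
        apply indicator_nonneg
        intro y _
        have := nsq_nonneg w y
        positivity
      · rw [not_lt] at hx
        have hxb : x ∈ ball (0 : ℂ) (3 * R1) := by
          rw [mem_ball, dist_zero_right]; linarith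
        rw [indicator_of_mem hxb, norm_mul, Real.norm_eq_abs, Real.norm_eq_abs, abs_of_nonneg hx0,
          abs_mul, abs_of_nonneg (hθb x).1]
        have h1 : (fderiv ℝ w x x) ^ 2 ≤ (2 * R1) ^ 2 * nsq w x :=
          (fderiv_self_le w x).trans (mul_le_mul_of_nonneg_right
            (pow_le_pow_left₀ (norm_nonneg _) hx 2) (nsq_nonneg w x))
        set dd := |fderiv ℝ w x x| with hdd
        have h2 : dd ^ 2 ≤ (2 * R1) ^ 2 * nsq w x := by rw [hdd, sq_abs]; exact h1
        have h3 : θ x * dd * ρ x ≤ dd * ρ x := by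
          apply mul_le_mul_of_nonneg_right _ hx0
          exact mul_le_of_le_one_left (abs_nonneg _) (hθb x).2
        refine h3.trans ?_
        have h4 : 4 * R1 * δ * (dd * ρ x) ≤ 4 * R1 * δ * (R1 * (δ⁻¹ * nsq w x + δ * ρ x ^ 2)) := by
          have h5 : 4 * R1 * δ * (R1 * (δ⁻¹ * nsq w x + δ * ρ x ^ 2)) =
              (2 * R1) ^ 2 * nsq w x + (2 * R1 * δ * ρ x) ^ 2 := by
            field_simp
            ring
          rw [h5]
          nlinarith [sq_nonneg (dd - 2 * R1 * δ * ρ x)]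
        exact le_of_mul_le_mul_left h4 (by positivity)
    · rw [integral_indicator measurableSet_ball, integral_const_mul,
        integral_add (hD.w_int.const_mul δ⁻¹) (hρ2.integrableOn.const_mul δ), integral_const_mul,
        integral_const_mul]
      apply mul_le_mul_of_nonneg_left _ hR1.le
      exact add_le_add (mul_le_mul_of_nonneg_left hD.w_en (by positivity))
        (mul_le_mul_of_nonneg_left hCR hδ.le)
  set D := ∫ p : ℂ × ℂ, inner ℝ (θ p.1 • p.1 - θ p.2 • p.2) (p.1 - p.2)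
        / ‖p.1 - p.2‖ ^ 2 * (ρ p.1 * ρ p.2) with hDD
  set a := ms ρ 0 R1 with ha
  set d := ms ρ 0 R2 - a with hd
  have hpi : 1 / (4 * Real.pi) ≤ 1 := by
    rw [div_le_one (by positivity)]
    linarith [Real.pi_gt_three]
  have hpi0 : 0 ≤ 1 / (4 * Real.pi) := by positivity
  have t2' : |1 / (4 * Real.pi) * (D - a ^ 2)| ≤ 2 * C * d * Λ + κ * Λ ^ 2 := by
    rw [abs_mul, abs_of_nonneg hpi0]
    calc 1 / (4 * Real.pi) * |D - a ^ 2| ≤ 1 * |D - a ^ 2| :=
          mul_le_mul_of_nonneg_right hpi (abs_nonneg _)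
      _ ≤ _ := by rw [one_mul]; exact t2
  rw [hv] at t1
  rw [abs_le] at t1 t2' t3 t4 ⊢
  constructor <;> [skip; skip] <;> nlinarith [t1.1, t1.2, t2'.1, t2'.2, t3.1, t3.2, t4.1, t4.2]

end est

theorem reg (h1 : S_VIR) (h2 : S_KER) : S_REG := by
  intro 𝒰 Λ ρ g w hB hL2 m M hm hM hM0
  obtain ⟨C, Θ, hC, hΘ⟩ := h2
  have hdat : ∀ᶠ n in (𝒰 : Filter ℕ), IsDatum Λ 1 1 1 (ρ n) (g n) (w n) :=
    hB 1 1 1 one_pos one_pos one_pos
  have hΛ : 0 ≤ Λ := by
    obtain ⟨n, hn⟩ := hdat.exists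
    exact (integral_nonneg hn.nonneg).trans hn.mass
  have hmm : ∀ s s', 0 < s → s ≤ s' → m s ≤ m s' := by
    intro s s' hs hss
    refine le_of_tendsto_of_tendsto (hm s hs) (hm s' (hs.trans_le hss)) ?_
    filter_upwards [hdat] with n hn
    have hi : Integrable (ρ n) := hn.diff.continuous.integrable_of_hasCompactSupport hn.supp
    exact setIntegral_mono_set hi.integrableOn (Eventually.of_forall hn.nonneg)
      (ball_subset_ball hss).eventuallyLE
  have hmM : ∀ s, 0 < s → m s ≤ M := fun s hs =>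
    ge_of_tendsto hM (by
      filter_upwards [eventually_ge_atTop s] with s' hs'
      exact hmm s s' hs hs')
  have hpi : 1 / (4 * Real.pi) ≤ 1 := by
    rw [div_le_one (by positivity)]
    linarith [Real.pi_gt_three]
  have hpi0 : 0 ≤ 1 / (4 * Real.pi) := by positivity
  set B := 3 * C + 6 * C * Λ + Λ ^ 2 + 2 * Λ + 1 + 4 + (4 * M + 4) with hBdef
  have hB0 : 0 < B := by positivity
  have key : ∀ κ : ℝ, 0 < κ → κ < 1 → |2 * M - 1 / (4 * Real.pi) * M ^ 2| ≤ B * κ := by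
    intro κ hκ hκ1
    obtain ⟨R1, hR1, hR1M⟩ : ∃ R1 : ℝ, 1 ≤ R1 ∧ M - κ ≤ m R1 := by
      have e1 : ∀ᶠ s in atTop, m s ∈ Metric.ball M κ := hM (Metric.ball_mem_nhds M hκ)
      obtain ⟨s, hs, hs1⟩ := (e1.and (eventually_ge_atTop (1 : ℝ))).exists
      refine ⟨s, hs1, ?_⟩
      rw [Metric.mem_ball, Real.dist_eq, abs_lt] at hs
      linarith [hs.1]
    have hR10 : 0 < R1 := by linarith
    set R2 := 2 * R1 + R1 / κ with hR2
    have hR2' : 2 * R1 < R2 := by
      have : 0 < R1 / κ := by positivity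
      linarith
    have hκR : R1 / (R2 - R1) ≤ κ := by
      rw [div_le_iff₀ (by linarith)]
      have : κ * (R2 - R1) = κ * R1 + R1 := by
        rw [hR2]; field_simp; ring
      rw [this]
      have := mul_pos hκ hR10
      linarith
    obtain ⟨CR, hCR⟩ := hL2 (3 * R1) (by positivity)
    set δ := κ / (2 * R1 * (|CR| + 1)) with hδ
    have hδ0 : 0 < δ := by positivity
    set ε := min 1 (κ * δ / (2 * R1)) with hε
    have hε0 : 0 < ε := by positivity
    have hL0 : 0 < κ / R1 := by positivity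
    have ev1 : ∀ᶠ n in (𝒰 : Filter ℕ), ms (ρ n) 0 R1 ∈ Metric.ball (m R1) κ :=
      hm R1 hR10 (Metric.ball_mem_nhds _ hκ)
    have ev2 : ∀ᶠ n in (𝒰 : Filter ℕ), ms (ρ n) 0 R2 ∈ Metric.ball (m R2) κ :=
      hm R2 (by linarith) (Metric.ball_mem_nhds _ hκ)
    obtain ⟨n, ⟨⟨⟨hn1, hn2⟩, hn3⟩, hn4⟩⟩ := (((ev1.and ev2).and hCR).and
      (hB (3 * R1) (κ / R1) ε (by positivity) hL0 hε0)).exists
    obtain ⟨k1, k2, k3, k4, k5, k6, k7, k8⟩ := hΘ R1 hR10
    have hest := est hn4 hC.le hR10 hR2' hκR hL0.le hδ0 hn3 k1 k2 k3 k4 k5 k6 k7 k8 h1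
    rw [Metric.mem_ball, Real.dist_eq, abs_lt] at hn1 hn2
    set a := ms (ρ n) 0 R1 with ha
    set d := ms (ρ n) 0 R2 - a with hd
    have hmR1 := hmM R1 hR10
    have hmR2 := hmM R2 (by linarith)
    have ha1 : M - 2 * κ ≤ a := by linarith [hn1.1]
    have ha2 : a ≤ M + 2 * κ := by linarith [hn1.2]
    have hd1 : d ≤ 3 * κ := by linarith [hn2.2]
    have e1 : 2 * R1 * (κ / R1) * Λ = 2 * Λ * κ := by field_simp
    have e2 : R1 * (δ⁻¹ * ε ^ 2) ≤ κ / 2 := by
      have h3 : ε ^ 2 ≤ κ * δ / (2 * R1) := by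
        have h4 : ε ≤ 1 := min_le_left _ _
        have h5 : ε ≤ κ * δ / (2 * R1) := min_le_right _ _
        calc ε ^ 2 = ε * ε := by ring
          _ ≤ 1 * ε := mul_le_mul_of_nonneg_right h4 hε0.le
          _ ≤ _ := by rw [one_mul]; exact h5
      calc R1 * (δ⁻¹ * ε ^ 2) ≤ R1 * (δ⁻¹ * (κ * δ / (2 * R1))) := by gcongr
        _ = κ / 2 := by field_simp
    have e3 : R1 * (δ * CR) ≤ κ / 2 := by
      calc R1 * (δ * CR) ≤ R1 * (δ * (|CR| + 1)) := by
            gcongr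
            linarith [le_abs_self CR]
        _ = κ / 2 := by rw [hδ]; field_simp
    have e4 : C * d ≤ 3 * C * κ := by
      have := mul_le_mul_of_nonneg_left hd1 hC.le
      linarith
    have e5 : 2 * C * d * Λ ≤ 6 * C * Λ * κ := by
      have : 2 * C * d * Λ = 2 * (C * Λ) * d := by ring
      rw [this]
      have h3 : 0 ≤ 2 * (C * Λ) := by positivity
      have h4 := mul_le_mul_of_nonneg_left hd1 h3
      linarith
    have hest' : |2 * a - 1 / (4 * Real.pi) * a ^ 2| ≤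
        (3 * C + 6 * C * Λ + Λ ^ 2 + 2 * Λ + 1) * κ := by
      refine hest.trans ?_
      rw [e1, mul_add R1]
      linarith
    have e6 : |a - M| ≤ 2 * κ := by
      rw [abs_le]; constructor <;> linarith
    have e7 : |a ^ 2 - M ^ 2| ≤ (4 * M + 4) * κ := by
      have h3 : a ^ 2 - M ^ 2 = (a - M) * (a + M) := by ring
      have h4 : |a + M| ≤ 2 * M + 2 := by
        rw [abs_le]; constructor <;> linarith
      rw [h3, abs_mul]
      calc |a - M| * |a + M| ≤ 2 * κ * (2 * M + 2) :=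
            mul_le_mul e6 h4 (abs_nonneg _) (by positivity)
        _ = (4 * M + 4) * κ := by ring
    have e8 : |1 / (4 * Real.pi) * (a ^ 2 - M ^ 2)| ≤ (4 * M + 4) * κ := by
      rw [abs_mul, abs_of_nonneg hpi0]
      calc 1 / (4 * Real.pi) * |a ^ 2 - M ^ 2| ≤ 1 * |a ^ 2 - M ^ 2| :=
            mul_le_mul_of_nonneg_right hpi (abs_nonneg _)
        _ ≤ _ := by rw [one_mul]; exact e7
    have e9 : 2 * M - 1 / (4 * Real.pi) * M ^ 2 = (2 * a - 1 / (4 * Real.pi) * a ^ 2)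
        - 2 * (a - M) + 1 / (4 * Real.pi) * (a ^ 2 - M ^ 2) := by ring
    rw [e9]
    rw [abs_le] at hest' e6 e8 ⊢
    have e10 : B * κ = (3 * C + 6 * C * Λ + Λ ^ 2 + 2 * Λ + 1) * κ + 4 * κ + (4 * M + 4) * κ := by
      rw [hBdef]; ring
    rw [e10]
    constructor <;> linarith [hest'.1, hest'.2, e6.1, e6.2, e8.1, e8.2]
  have hzero : 2 * M - 1 / (4 * Real.pi) * M ^ 2 = 0 := by
    by_contra hne
    have hx : 0 < |2 * M - 1 / (4 * Real.pi) * M ^ 2| := abs_pos.2 hne
    set x := |2 * M - 1 / (4 * Real.pi) * M ^ 2| with hxdef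
    have h3 := key (min (1 / 2) (x / (2 * B))) (by positivity)
      (lt_of_le_of_lt (min_le_left _ _) (by norm_num))
    have h4 : B * min (1 / 2) (x / (2 * B)) ≤ B * (x / (2 * B)) :=
      mul_le_mul_of_nonneg_left (min_le_right _ _) hB0.le
    have h5 : B * (x / (2 * B)) = x / 2 := by field_simp
    linarith
  have hpi' : Real.pi ≠ 0 := Real.pi_ne_zero
  have h3 : M * (8 * Real.pi - M) = 0 := by
    field_simp at hzero
    linarith
  rcases mul_eq_zero.1 h3 with h4 | h4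
  · exact absurd h4 hM0.ne'
  · linarith

end Pool.Agent.W787.PS.W414
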